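import Pool.Agent.TH762.E2.Tab
import Pool.Agent.TH762.E2.IS

/-!
# E is contained in DLBA (in LBA) iff DLBA (LBA) can name wrong values of functions in E

We work with predicates on natural numbers (words written in binary). `E2s` is the class `ℰ²_*` of
Grzegorczyk, which is DLBA (Ritchie). `NLin` is LBA: the predicates which say that a path leads from
`0` to `1` in a graph on the numbers up to a polynomial in the arguments whose edges are in `ℰ²_*` (the
configuration graph of a nondeterministic linearly bounded automaton). `ET` are the functions with
values bounded by polynomials which are computable in time `2^O(n)`: the class generated like `ℰ²`,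
with limited recursion on tableaux in addition, where the value of a cell depends on the values
of the neighbouring cells one step before (the cells of the tape of a Turing machine); `ETs` is E.

Theorem: E = DLBA if and only if for some constant `k` for each function `f : ℕ → {0, ..., k}` in E
there is a function `g : ℕ → {0, ..., k}` in DLBA with `g x ≠ f x` for all `x`; for `k = 1` this is the
same as computing `f`. In the same way E ⊆ LBA iff for some `k` such `g` exist in LBA, and for every
class `D` closed under bounded quantification, E ⊆ D iff for some `k` such `g` exist in `D`.

Proof: the values of a tableau at `k` cells are coded by a number; for any `k + 1` codes the number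
of those codes which are at most the true one is a function in E with values `0, ..., k`, so one
of the codes is excluded. So there is a list of at most `k` candidates for the values at any `k` cells.
By `MC.world` for some `d < k` there are `k - d - 1` cells such that their true values together with
the value at one further cell survive the extensions by `d` cells in exactly one way. By bounded
quantifiers one guesses the values at the `k - d - 1` cells, and checks with the recursion whether
the values which they give are right. For LBA the theorem of Immerman and Szelepcsenyi is used,
which is proved here for the class `NLin`.
-/

set_option autoImplicit false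

namespace Pool.Agent.Results.MP_b7da94_lc.AvoidedValue

open Pool.Agent.TH762.E2

/-- (1) E = DLBA iff for some `k` the functions in E with values `0..k` are avoided by DLBA;
(2) E is contained in LBA iff for some `k` they are avoided by LBA; (3) the same for any class `D` of
predicates closed under polynomial (in)equalities, Boolean operations, polynomially bounded
quantification and renaming of variables; (4) LBA is such a class. -/
theorem result :
    ((∀ (n : ℕ) (R : (Fin n → ℕ) → Prop), R ∈ ETs n ↔ R ∈ E2s n) ↔
      ∃ k : ℕ, AvoidE E2s k) ∧
    ((∀ (n : ℕ) (R : (Fin n → ℕ) → Prop), R ∈ ETs n → R ∈ NLin n) ↔
      ∃ k : ℕ, AvoidE NLin k) ∧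
    (∀ D : (n : ℕ) → Set ((Fin n → ℕ) → Prop), Clo D →
      ((∀ (n : ℕ) (R : (Fin n → ℕ) → Prop), R ∈ ETs n → R ∈ D n) ↔ ∃ k : ℕ, AvoidE D k)) ∧
    Clo NLin :=
  ⟨law_E_dlba, law_ET clo_nlin, fun _ hD => law_ET hD, clo_nlin⟩

end Pool.Agent.Results.MP_b7da94_lc.AvoidedValue
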