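import Pool.Agent.TH755.BL.Cls

/-!
# `DLBA`, `LBA`, `E`, `NE` and oracles tossed with biased coins

How much may an adversary influence the coins with which a random oracle is tossed, such that `P` (so
`E`) is still not contained in linear space relative to the oracle? The bits of the oracle are
revealed in order of length. A law is `ε`-biased if the next bit, for a string of length `m`, has
each value with conditional probability at most `1 / 2 + ε m`. So the adversary fails to determine
this bit with probability at least `1 / 2 - ε m`.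

* If, for every `δ > 0`, `1 / 2 - ε m ≥ 2 ^ (-δ m)` for infinitely many `m`, then, for every
  `ε`-biased law and almost every oracle `A`, some language in `P` is neither in nondeterministic
  linear space (with questions of linear length) nor in any class of languages given by countably
  many functionals which get the strings of linear length in `A` and `2 ^ o(n)` bits of advice.
* Otherwise, for some `ε`-biased law and almost every `A`, every language in `NE` is decided by one
  random question of linear length, and it is in deterministic linear space. So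
  `DLBA = LBA = E = NE` relative to `A`, where `DLBA` and `LBA` ask questions of linear length.
-/

set_option autoImplicit false

namespace Pool.Agent.Results.MP_b7da94_lc.BiasedOracles

open Pool.Agent.NPC Pool.Agent.H620R2.Gauge Pool.Agent.H622R2.Exp Pool.Agent.TH93.LN
open Pool.Agent.W900.BC (Biased)
open Pool.Agent.TH755.BL (LocalSub)
open MeasureTheory Filter

theorem result (ε : ℕ → ℝ) (hε : ∀ n, 0 ≤ ε n) :
    ((∀ δ : ℝ, 0 < δ → ∃ᶠ m : ℕ in atTop, (2 : ℝ) ^ (-(δ * m)) ≤ 1 / 2 - ε m) →
      ∀ μ : Measure Oracle, IsProbabilityMeasure μ → Biased ε μ →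
        ∀ Ψ : ℕ → Oracle → List Bool → Prop, ∀ᵐ A ∂μ, ∃ L, IsP A L ∧ InTime Lin A L ∧
          ¬ InNLinSpace A L ∧ ¬ LocalSub Ψ A L) ∧
    ((¬ ∀ δ : ℝ, 0 < δ → ∃ᶠ m : ℕ in atTop, (2 : ℝ) ^ (-(δ * m)) ≤ 1 / 2 - ε m) →
      ∃ μ : Measure Oracle, IsProbabilityMeasure μ ∧ Biased ε μ ∧
        ∀ᵐ A ∂μ, ∀ L, InNTime Lin A L → OneQ A L ∧ InLinSpace A L) := by
  refine ⟨fun h μ hμ hb Ψ => ?_, fun h => ?_⟩
  · filter_upwards [Pool.Agent.TH755.BL.pos h hb Ψ,
      Pool.Agent.TH755.BL.pos h hb (noAdv PsiN0)] with A h1 h2
    exact ⟨_, h1.1, IsP.inTime h1.1, fun h3 => h2.2 (Pool.Agent.TH755.BL.nlin_sub h3), h1.2⟩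
  · obtain ⟨μ, h1, h2, h3⟩ := Pool.Agent.TH755.BL.neg hε h
    refine ⟨μ, h1, h2, ?_⟩
    filter_upwards [h3] with A hA L hL
    exact ⟨hA L hL, (hA L hL).inLinSpace⟩

end Pool.Agent.Results.MP_b7da94_lc.BiasedOracles
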