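import Pool.Agent.TH93.LN.Fin

/-!
# The size of the set of the oracles relative to which `DLBA = LBA ≠ E`

`InTime Lin A` is the class `E` relative to `A`. Let `C₁` and `C₂` be relativized classes of
languages, such that `C₁` contains the languages decided by one random question of linear length
(`OneQ`), and the languages in `C₂` are given by some functional from a list `Ψ` which gets the
strings of linear length in the oracle (`Loc0 Ψ`). For instance `C₁` is `DLBA` and `C₂` is `LBA`,
where the questions have linear length. If the gauge `f` satisfies `N ^ ε < f N` for some `ε > 0` and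
all large `N`, then the set of the oracles relative to which `C₂` is contained in `C₁`, but `E` is
not contained in `C₂`, is not a null set for `f`. In particular its Hausdorff dimension is `1`.
-/

set_option autoImplicit false

namespace Pool.Agent.Results.MP_b7da94_lc.DimensionPattern

open Pool.Agent.NPC Pool.Agent.H620R2.Gauge Pool.Agent.H622R2.Exp Pool.Agent.TH93.LN

theorem result (f : ℕ → ℝ)
    (hf : ∃ ε : ℝ, 0 < ε ∧ ∀ᶠ N : ℕ in Filter.atTop, (N : ℝ) ^ ε < f N)
    (Ψ : ℕ → Oracle → List Bool → Prop)
    (C₁ C₂ : Oracle → Set (List Bool) → Prop) (h₁ : ∀ A L, OneQ A L → C₁ A L)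
    (h₂ : ∀ A L, C₂ A L → Loc0 Ψ A L) :
    ¬ Null f {A : Oracle | (∀ L, C₂ A L → C₁ A L) ∧ ∃ L, InTime Lin A L ∧ ¬ C₂ A L} := by
  refine chainPattern f (fun h => ?_) Ψ C₁ C₂ h₁ h₂
  obtain ⟨ε, hε, hN⟩ := hf
  obtain ⟨N, hN1, hN2⟩ := ((h ε hε).and_eventually hN).exists
  exact absurd hN1 (not_le.2 hN2)

end Pool.Agent.Results.MP_b7da94_lc.DimensionPattern
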