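import Pool.Agent.TH93.LN.Fin

/-!
# The oracles relative to which the chain `DLBA`, `LBA`, `E`, `NE` collapses

`InTime Lin A` is the class `E` relative to `A`, and `InNTime Lin A` is `NE`. Let `C₁` and `C₂` be
relativized classes of languages, such that `C₁` contains the languages decided by one random
question of linear length (`OneQ`), and the languages in `C₂` are given by some functional from a
list `Ψ` which gets the strings of linear length in the oracle and `2 ^ n / (n + 1)` bits of advice
(`LocalTo Ψ`). For instance each of `C₁` and `C₂` is `DLBA` or `LBA`, where the questions have linear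
length. Let `O` be a set of oracles which contains the oracles relative to which `NE` is contained in
`C₁`, and such that `P` is contained in `C₂` relative to all oracles in `O`. For instance `O` is the
set of the oracles relative to which `DLBA = NE`, or the set of those relative to which `E` is
contained in `LBA`. Then `O` is a null set for the gauge `f` if and only if for every `ε > 0` there
are infinitely many `N` with `f N ≤ N ^ ε`.
-/

set_option autoImplicit false

namespace Pool.Agent.Results.MP_b7da94_lc.GaugeThreshold

open Pool.Agent.NPC Pool.Agent.H620R2.Gauge Pool.Agent.H622R2.Exp Pool.Agent.TH93.LN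

theorem result (f : ℕ → ℝ) (Ψ : ℕ → Oracle → List Bool → Prop)
    (C₁ C₂ : Oracle → Set (List Bool) → Prop) (h₁ : ∀ A L, OneQ A L → C₁ A L)
    (h₂ : ∀ A L, C₂ A L → LocalTo Ψ A L) (O : Set Oracle)
    (h₃ : {A : Oracle | ∀ L, InNTime Lin A L → C₁ A L} ⊆ O)
    (h₄ : O ⊆ {A : Oracle | ∀ L, IsP A L → C₂ A L}) :
    Null f O ↔ ∀ ε : ℝ, 0 < ε → ∃ᶠ N : ℕ in Filter.atTop, f N ≤ (N : ℝ) ^ ε :=
  chainGauge f Ψ C₁ C₂ h₁ h₂ O h₃ h₄

end Pool.Agent.Results.MP_b7da94_lc.GaugeThreshold
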